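import Mathlib
import Pool.Agent.Helper37.IE.Defs

/-! MP_7cf8d2: combination of robust flows on two disjoint sets (used by IE-4b and IE-4c). -/

namespace Pool.Agent.Helper37.IE

open Finset Pool.Agent.Helper49.CDC Pool.Agent.Helper37.GRT
open scoped Classical

universe u v

variable {V : Type v} {E : Type u}

theorem deg_congr [Fintype E] {ends : E → Sym2 V} {X X' : Set E} {v : V}
    (h : ∀ e, v ∈ ends e → (e ∈ X ↔ e ∈ X')) (hX : Deg02 ends X v) : Deg02 ends X' v := by
  unfold Deg02 at *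
  have : (univ.filter (fun e => v ∈ ends e ∧ e ∈ X')) =
      univ.filter (fun e => v ∈ ends e ∧ e ∈ X) := by
    ext e
    simp only [Finset.mem_filter, Finset.mem_univ, true_and]
    constructor
    · exact fun ⟨h1, h2⟩ => ⟨h1, (h e h1).2 h2⟩
    · exact fun ⟨h1, h2⟩ => ⟨h1, (h e h1).1 h2⟩
  rw [this]
  exact hX

theorem split_sum [Fintype V] {K K1 K2 : Set V} (hd : Disjoint K1 K2)
    (hK : ∀ v, v ∈ K ↔ v ∈ K1 ∨ v ∈ K2) (Q : V → Prop) (F : V → W) :
    ∑ v ∈ univ.filter (fun v => v ∈ K ∧ Q v), F v =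
      ∑ v ∈ univ.filter (fun v => v ∈ K1 ∧ Q v), F v +
      ∑ v ∈ univ.filter (fun v => v ∈ K2 ∧ Q v), F v := by
  rw [← Finset.sum_union]
  · refine Finset.sum_congr ?_ fun _ _ => rfl
    ext v
    simp only [Finset.mem_filter, Finset.mem_univ, true_and, Finset.mem_union, hK]
    tauto
  · rw [Finset.disjoint_left]
    intro v h1 h2
    exact Set.disjoint_left.1 hd (Finset.mem_filter.1 h1).2.1 (Finset.mem_filter.1 h2).2.1

theorem combine [Fintype V] [Fintype E] (ends : E → Sym2 V) (K1 K2 : Set V)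
    (hd : Disjoint K1 K2) {P1 P2 P : Type u} (X1 X2 : Set E) (comp1 : V → P1) (comp2 : V → P2)
    (f1 f2 : E → W) (R1 : Robust ends K1 X1 comp1 f1) (R2 : Robust ends K2 X2 comp2 f2)
    (i1 : P1 → P) (i2 : P2 → P) (hi1 : Function.Injective i1) (hi2 : Function.Injective i2)
    (hedge : ∀ e u w, ends e = s(u, w) → u ∈ K1 → w ∈ K2 →
      i1 (comp1 u) = i2 (comp2 w) ∧ f1 e = f2 e)
    (hcross : ∀ x : V → ZMod 2, (∀ e ∈ Between ends K1 K2, ∀ u w, ends e = s(u, w) → x u = x w) →
      (∀ u ∈ K1, ∀ w ∈ K1, comp1 u = comp1 w → x u = x w) →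
      (∀ u ∈ K2, ∀ w ∈ K2, comp2 u = comp2 w → x u = x w) →
      ∀ u ∈ K1, ∀ w ∈ K2, i1 (comp1 u) = i2 (comp2 w) → x u = x w) :
    Robust ends (K1 ∪ K2) (X1 ∪ X2)
      (fun v => if v ∈ K1 then i1 (comp1 v) else i2 (comp2 v))
      (fun e => if e ∈ Touch ends K1 then f1 e else f2 e) := by
  have hd12 : ∀ v, v ∈ K1 → v ∉ K2 := fun v h1 h2 => Set.disjoint_left.1 hd h1 h2
  have hd21 : ∀ v, v ∈ K2 → v ∉ K1 := fun v h2 h1 => Set.disjoint_left.1 hd h1 h2
  have hX1 : ∀ e ∈ X1, ∀ v ∈ ends e, v ∈ K1 := fun e he v hv => R1.sub he v hv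
  have hX2 : ∀ e ∈ X2, ∀ v ∈ ends e, v ∈ K2 := fun e he v hv => R2.sub he v hv
  set h : E → W := fun e => if e ∈ Touch ends K1 then f1 e else f2 e with hh
  set comp : V → P := fun v => if v ∈ K1 then i1 (comp1 v) else i2 (comp2 v) with hcomp
  have hc1 : ∀ v, v ∈ K1 → comp v = i1 (comp1 v) := fun v hv => if_pos hv
  have hc2 : ∀ v, v ∈ K2 → comp v = i2 (comp2 v) := fun v hv => if_neg (hd21 v hv)
  have hh1 : ∀ e, e ∈ Touch ends K1 → h e = f1 e := fun e he => if_pos he
  have hh2 : ∀ e, e ∈ Touch ends K2 → h e = f2 e := by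
    intro e he
    by_cases h1 : e ∈ Touch ends K1
    · rw [hh1 e h1]
      obtain ⟨a, c, hac⟩ := exists_ends ends e
      rw [mem_touch_iff ends K1 e a c hac] at h1
      rw [mem_touch_iff ends K2 e a c hac] at he
      rcases h1 with h1 | h1 <;> rcases he with h2 | h2
      · exact absurd h2 (hd12 a h1)
      · exact (hedge e a c hac h1 h2).2
      · exact (hedge e c a (hac.trans Sym2.eq_swap) h1 h2).2
      · exact absurd h2 (hd12 c h1)
    · exact if_neg h1
  -- boundaries
  have hb1 : ∀ v, v ∈ K1 → bd ends (rs (X1 ∪ X2)ᶜ h) v = bd ends (rs X1ᶜ f1) v := by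
    intro v hv
    unfold bd
    refine Finset.sum_congr rfl fun e he => ?_
    have hve := (Finset.mem_filter.1 he).2
    have het : e ∈ Touch ends K1 := ⟨v, hve, hv⟩
    have heX2 : e ∉ X2 := fun h2 => hd12 v hv (hX2 e h2 v hve)
    unfold rs
    rw [hh1 e het]
    by_cases h1 : e ∈ X1
    · rw [if_neg, if_neg]
      · exact fun h => h h1
      · exact fun h => h (Or.inl h1)
    · rw [if_pos, if_pos]
      · exact h1
      · exact fun h => h.elim h1 heX2
  have hb2 : ∀ v, v ∈ K2 → bd ends (rs (X1 ∪ X2)ᶜ h) v = bd ends (rs X2ᶜ f2) v := by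
    intro v hv
    unfold bd
    refine Finset.sum_congr rfl fun e he => ?_
    have hve := (Finset.mem_filter.1 he).2
    have het : e ∈ Touch ends K2 := ⟨v, hve, hv⟩
    have heX1 : e ∉ X1 := fun h2 => hd21 v hv (hX1 e h2 v hve)
    unfold rs
    rw [hh2 e het]
    by_cases h1 : e ∈ X2
    · rw [if_neg, if_neg]
      · exact fun h => h h1
      · exact fun h => h (Or.inr h1)
    · rw [if_pos, if_pos]
      · exact h1
      · exact fun h => h.elim heX1 h1
  -- sums over the union
  have hcon1 : ∀ y : V → ZMod 2, Con ends (X1 ∪ X2) y → Con ends X1 y :=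
    fun y hy e he => hy e (Or.inl he)
  have hcon2 : ∀ y : V → ZMod 2, Con ends (X1 ∪ X2) y → Con ends X2 y :=
    fun y hy e he => hy e (Or.inr he)
  refine ⟨?_, ?_, ?_, ?_, ?_, ?_⟩
  · -- sub
    rintro e (he | he) v hv
    · exact Or.inl (hX1 e he v hv)
    · exact Or.inr (hX2 e he v hv)
  · -- deg
    intro v
    by_cases hv : v ∈ K1
    · refine deg_congr (fun e he => ?_) (R1.deg v)
      constructor
      · exact fun h => Or.inl h
      · rintro (h2 | h2)
        · exact h2
        · exact absurd (hX2 e h2 v he) (hd12 v hv)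
    · refine deg_congr (fun e he => ?_) (R2.deg v)
      constructor
      · exact fun h => Or.inr h
      · rintro (h2 | h2)
        · exact absurd (hX1 e h2 v he) hv
        · exact h2
  · -- inner
    intro e he heX u w hew
    have he1 : e ∉ X1 := fun h => heX (Or.inl h)
    have he2 : e ∉ X2 := fun h => heX (Or.inr h)
    rw [mem_inner_iff ends _ e u w hew] at he
    rcases he.1 with hu | hu <;> rcases he.2 with hw | hw
    · rw [hc1 u hu, hc1 w hw]
      rw [R1.inner e ((mem_inner_iff ends K1 e u w hew).2 ⟨hu, hw⟩) he1 u w hew]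
    · rw [hc1 u hu, hc2 w hw]
      exact (hedge e u w hew hu hw).1
    · rw [hc2 u hu, hc1 w hw]
      exact (hedge e w u (hew.trans Sym2.eq_swap) hw hu).1.symm
    · rw [hc2 u hu, hc2 w hw]
      rw [R2.inner e ((mem_inner_iff ends K2 e u w hew).2 ⟨hu, hw⟩) he2 u w hew]
  · -- nz
    intro e he heX
    have he1 : e ∉ X1 := fun h => heX (Or.inl h)
    have he2 : e ∉ X2 := fun h => heX (Or.inr h)
    obtain ⟨v, hv, hvK⟩ := he
    rcases hvK with hvK | hvK
    · rw [hh1 e ⟨v, hv, hvK⟩]
      exact R1.nz e ⟨v, hv, hvK⟩ he1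
    · rw [hh2 e ⟨v, hv, hvK⟩]
      exact R2.nz e ⟨v, hv, hvK⟩ he2
  · -- bal
    intro y hy p
    rw [split_sum hd (K := K1 ∪ K2) (fun _ => Iff.rfl) (fun v => comp v = p)]
    have e1 : ∑ v ∈ univ.filter (fun v => v ∈ K1 ∧ comp v = p),
        y v • bd ends (rs (X1 ∪ X2)ᶜ h) v = 0 := by
      by_cases hp : ∃ p1, i1 p1 = p
      · obtain ⟨p1, hp1⟩ := hp
        refine Eq.trans (Finset.sum_congr ?_ fun v hv => ?_) (R1.bal y (hcon1 y hy) p1)
        · ext v
          simp only [Finset.mem_filter, Finset.mem_univ, true_and]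
          constructor
          · rintro ⟨h1, h2⟩
            rw [hc1 v h1, ← hp1] at h2
            exact ⟨h1, hi1 h2⟩
          · rintro ⟨h1, h2⟩
            rw [hc1 v h1, h2, hp1]
            exact ⟨h1, rfl⟩
        · rw [hb1 v (Finset.mem_filter.1 hv).2.1]
      · rw [Finset.filter_false_of_mem, Finset.sum_empty]
        rintro v _ ⟨h1, h2⟩
        rw [hc1 v h1] at h2
        exact hp ⟨_, h2⟩
    have e2 : ∑ v ∈ univ.filter (fun v => v ∈ K2 ∧ comp v = p),
        y v • bd ends (rs (X1 ∪ X2)ᶜ h) v = 0 := by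
      by_cases hp : ∃ p1, i2 p1 = p
      · obtain ⟨p1, hp1⟩ := hp
        refine Eq.trans (Finset.sum_congr ?_ fun v hv => ?_) (R2.bal y (hcon2 y hy) p1)
        · ext v
          simp only [Finset.mem_filter, Finset.mem_univ, true_and]
          constructor
          · rintro ⟨h1, h2⟩
            rw [hc2 v h1, ← hp1] at h2
            exact ⟨h1, hi2 h2⟩
          · rintro ⟨h1, h2⟩
            rw [hc2 v h1, h2, hp1]
            exact ⟨h1, rfl⟩
        · rw [hb2 v (Finset.mem_filter.1 hv).2.1]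
      · rw [Finset.filter_false_of_mem, Finset.sum_empty]
        rintro v _ ⟨h1, h2⟩
        rw [hc2 v h1] at h2
        exact hp ⟨_, h2⟩
    rw [e1, e2, add_zero]
  · -- rob
    intro z x hx hy
    have hinner : ∀ e ∈ Inner ends K1, e ∉ X1 → e ∈ Inner ends (K1 ∪ K2) ∧ e ∉ X1 ∪ X2 := by
      intro e he heX
      refine ⟨fun v hv => Or.inl (he v hv), fun h => ?_⟩
      rcases h with h | h
      · exact heX h
      · obtain ⟨a, c, hac⟩ := exists_ends ends e
        have ha : a ∈ ends e := by rw [hac]; exact Sym2.mem_mk_left a c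
        exact hd12 a (he a ha) (hX2 e h a ha)
    have hinner2 : ∀ e ∈ Inner ends K2, e ∉ X2 → e ∈ Inner ends (K1 ∪ K2) ∧ e ∉ X1 ∪ X2 := by
      intro e he heX
      refine ⟨fun v hv => Or.inr (he v hv), fun h => ?_⟩
      rcases h with h | h
      · obtain ⟨a, c, hac⟩ := exists_ends ends e
        have ha : a ∈ ends e := by rw [hac]; exact Sym2.mem_mk_left a c
        exact hd12 a (hX1 e h a ha) (he a ha)
      · exact heX h
    have r1 : ∀ u ∈ K1, ∀ w ∈ K1, comp1 u = comp1 w → x u = x w := by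
      apply R1.rob (fun p => z (i1 p)) x
      · intro e he heX
        exact hx e (hinner e he heX).1 (hinner e he heX).2
      · intro y hyc
        have h1 := hy (fun v => if v ∈ K1 then y v else 0) (by
          rintro e (he | he) u w hew
          · have hu : u ∈ K1 := hX1 e he u (by rw [hew]; exact Sym2.mem_mk_left u w)
            have hw : w ∈ K1 := hX1 e he w (by rw [hew]; exact Sym2.mem_mk_right u w)
            show (if u ∈ K1 then y u else 0) = (if w ∈ K1 then y w else 0)
            rw [if_pos hu, if_pos hw]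
            exact hyc e he u w hew
          · have hu : u ∈ K2 := hX2 e he u (by rw [hew]; exact Sym2.mem_mk_left u w)
            have hw : w ∈ K2 := hX2 e he w (by rw [hew]; exact Sym2.mem_mk_right u w)
            show (if u ∈ K1 then y u else 0) = (if w ∈ K1 then y w else 0)
            rw [if_neg (hd21 u hu), if_neg (hd21 w hw)])
        rw [Finset.sum_filter] at h1 ⊢
        refine Eq.trans (Finset.sum_congr rfl fun v _ => ?_) h1
        by_cases hv : v ∈ K1
        · have hvK : v ∈ K1 ∪ K2 := Or.inl hv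
          rw [if_pos hvK, if_pos hv, if_pos hv, hc1 v hv, hb1 v hv]
        · rw [if_neg hv]
          split_ifs
          · rw [zero_mul, zero_smul]
          · rfl
    have r2 : ∀ u ∈ K2, ∀ w ∈ K2, comp2 u = comp2 w → x u = x w := by
      apply R2.rob (fun p => z (i2 p)) x
      · intro e he heX
        exact hx e (hinner2 e he heX).1 (hinner2 e he heX).2
      · intro y hyc
        have h1 := hy (fun v => if v ∈ K2 then y v else 0) (by
          rintro e (he | he) u w hew
          · have hu : u ∈ K1 := hX1 e he u (by rw [hew]; exact Sym2.mem_mk_left u w)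
            have hw : w ∈ K1 := hX1 e he w (by rw [hew]; exact Sym2.mem_mk_right u w)
            show (if u ∈ K2 then y u else 0) = (if w ∈ K2 then y w else 0)
            rw [if_neg (hd12 u hu), if_neg (hd12 w hw)]
          · have hu : u ∈ K2 := hX2 e he u (by rw [hew]; exact Sym2.mem_mk_left u w)
            have hw : w ∈ K2 := hX2 e he w (by rw [hew]; exact Sym2.mem_mk_right u w)
            show (if u ∈ K2 then y u else 0) = (if w ∈ K2 then y w else 0)
            rw [if_pos hu, if_pos hw]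
            exact hyc e he u w hew)
        rw [Finset.sum_filter] at h1 ⊢
        refine Eq.trans (Finset.sum_congr rfl fun v _ => ?_) h1
        by_cases hv : v ∈ K2
        · have hvK : v ∈ K1 ∪ K2 := Or.inr hv
          rw [if_pos hvK, if_pos hv, if_pos hv, hc2 v hv, hb2 v hv]
        · rw [if_neg hv]
          split_ifs
          · rw [zero_mul, zero_smul]
          · rfl
    have r3 : ∀ u ∈ K1, ∀ w ∈ K2, i1 (comp1 u) = i2 (comp2 w) → x u = x w := by
      apply hcross x _ r1 r2
      intro e he u w hew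
      rw [mem_between_iff ends K1 K2 e u w hew] at he
      have hin : e ∈ Inner ends (K1 ∪ K2) := by
        rw [mem_inner_iff ends _ e u w hew]
        rcases he with ⟨h1, h2⟩ | ⟨h1, h2⟩
        · exact ⟨Or.inl h1, Or.inr h2⟩
        · exact ⟨Or.inr h2, Or.inl h1⟩
      apply hx e hin _ u w hew
      rintro (h1 | h1)
      · have hu : u ∈ K1 := hX1 e h1 u (by rw [hew]; exact Sym2.mem_mk_left u w)
        have hw : w ∈ K1 := hX1 e h1 w (by rw [hew]; exact Sym2.mem_mk_right u w)
        rcases he with ⟨_, h2⟩ | ⟨_, h2⟩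
        · exact hd12 w hw h2
        · exact hd12 u hu h2
      · have hu : u ∈ K2 := hX2 e h1 u (by rw [hew]; exact Sym2.mem_mk_left u w)
        have hw : w ∈ K2 := hX2 e h1 w (by rw [hew]; exact Sym2.mem_mk_right u w)
        rcases he with ⟨h2, _⟩ | ⟨h2, _⟩
        · exact hd12 u h2 hu
        · exact hd12 w h2 hw
    intro u hu w hw huw
    rcases hu with hu | hu <;> rcases hw with hw | hw
    · rw [hc1 u hu, hc1 w hw] at huw
      exact r1 u hu w hw (hi1 huw)
    · rw [hc1 u hu, hc2 w hw] at huw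
      exact r3 u hu w hw huw
    · rw [hc2 u hu, hc1 w hw] at huw
      exact (r3 w hw u hu huw.symm).symm
    · rw [hc2 u hu, hc2 w hw] at huw
      exact r2 u hu w hw (hi2 huw)

/-- legs of the union which touch one part are legs of this part -/
theorem legs_of_union {ends : E → Sym2 V} {K1 K2 : Set V} {e : E}
    (he : e ∈ Legs ends (K1 ∪ K2)) :
    (e ∈ Touch ends K1 → e ∈ Legs ends K1) ∧ (e ∈ Touch ends K2 → e ∈ Legs ends K2) := by
  obtain ⟨_, ⟨w, hw, hwK⟩⟩ := he
  exact ⟨fun h => ⟨h, w, hw, fun h => hwK (Or.inl h)⟩,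
    fun h => ⟨h, w, hw, fun h => hwK (Or.inr h)⟩⟩

theorem combine_legs {ends : E → Sym2 V} {K1 K2 : Set V} {f1 f2 b : E → W}
    (h1 : ∀ e ∈ Legs ends K1, f1 e = b e) (h2 : ∀ e ∈ Legs ends K2, f2 e = b e) :
    ∀ e ∈ Legs ends (K1 ∪ K2), (if e ∈ Touch ends K1 then f1 e else f2 e) = b e := by
  intro e he
  by_cases ht : e ∈ Touch ends K1
  · rw [if_pos ht]
    exact h1 e ((legs_of_union he).1 ht)
  · rw [if_neg ht]
    apply h2 e
    apply (legs_of_union he).2
    obtain ⟨⟨v, hv, hvK⟩, _⟩ := he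
    rcases hvK with hvK | hvK
    · exact absurd ⟨v, hv, hvK⟩ ht
    · exact ⟨v, hv, hvK⟩

end Pool.Agent.Helper37.IE
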